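import Pool.Agent.W810.KP.Defs

/-!
# Project KP, task DUA: duality of the local connection probabilities
-/

namespace Pool.Agent.W698.KPDua

open H974 H12S H973N Finset MeasureTheory Pool.Agent.W810.KP

theorem Con_mono {e : Edg} {F G : Finset Edg} (h : F ⊆ G) (hF : Con e F) : Con e G :=
  hF.mono (by exact_mod_cast Finset.erase_subset_erase e h)

theorem Con_incr (S : Finset Edg) (e : Edg) : IncrE S (Con e) := fun _ _ h _ hF => Con_mono h hF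

theorem pr_mono_n {q : ℝ} (h0 : 0 ≤ q) (h1 : q ≤ 1) (e : Edg) {n m : ℕ} (h : n ≤ m) :
    PQ q (boxE n) (Con e) ≤ PQ q (boxE m) (Con e) :=
  Pr_mono_set (okq h0 h1) (boxE_mono h) (Con_incr _ _)

theorem bdd {q : ℝ} (h0 : 0 ≤ q) (h1 : q ≤ 1) (e : Edg) :
    BddAbove (Set.range fun n : ℕ => PQ q (boxE n) (Con e)) :=
  ⟨1, by rintro _ ⟨n, rfl⟩; exact Pr_le_one (okq h0 h1) _ _⟩

theorem le_gb {q : ℝ} (h0 : 0 ≤ q) (h1 : q ≤ 1) (b : Bool) (n : ℕ) :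
    PQ q (boxE n) (Con (e0 b)) ≤ gb b q :=
  le_ciSup (bdd h0 h1 (e0 b)) n

theorem tendsto_gb {q : ℝ} (h0 : 0 ≤ q) (h1 : q ≤ 1) (b : Bool) :
    Filter.Tendsto (fun n : ℕ => PQ q (boxE n) (Con (e0 b))) Filter.atTop (nhds (gb b q)) :=
  tendsto_atTop_ciSup (fun _ _ h => pr_mono_n h0 h1 _ h) (bdd h0 h1 _)

/-- Translation invariance. -/
theorem Con_trl (s t : ℤ) (e : Edg) (F : Finset Edg) :
    Con ((trl s t).φ e) ((trl s t).mp F) ↔ Con e F := by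
  have h1 : src ((trl s t).φ e) = (trl s t).ψ (src e) := by
    obtain ⟨x, y, _ | _⟩ := e <;> rfl
  have h2 : tgt ((trl s t).φ e) = (trl s t).ψ (tgt e) := by
    obtain ⟨x, y, _ | _⟩ := e
    · simp; ring
    · simp; ring
  have h3 : (↑(((trl s t).mp F).erase ((trl s t).φ e)) : Set Edg) =
      (trl s t).φ '' (↑(F.erase e) : Set Edg) := by
    rw [Finset.coe_erase, Finset.coe_erase, LSym.coe_mp,
      Set.image_sdiff (trl s t).φ.injective, Set.image_singleton]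
  unfold Pool.Agent.W810.KP.Con
  rw [h3, h1, h2, LSym.reach_iff]

theorem pr_trl (q : ℝ) (s t : ℤ) (S : Finset Edg) (e : Edg) :
    PQ q ((trl s t).mp S) (Con ((trl s t).φ e)) = PQ q S (Con e) := by
  unfold PQ
  rw [LSym.pr]
  exact Pr_congr (fun F _ => Con_trl s t e F)

/-- The dual connection event, as an event for the closed edges. -/
theorem Con_dl (e : Edg) (H : Finset Edg) :
    Con (dl e) (dmp H) ↔ DReach (↑H \ {e}) (dsrc e) (dtgt e) := by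
  have h3 : (↑((dmp H).erase (dl e)) : Set Edg) = dl '' (↑H \ {e}) := by
    rw [Finset.coe_erase, coe_dmp, Set.image_sdiff dl.injective, Set.image_singleton]
  unfold Pool.Agent.W810.KP.Con
  rw [h3, src_dl, tgt_dl, reach_dl]

theorem pr_dual (q : ℝ) (S : Finset Edg) (e : Edg) :
    PQ q S (fun F => DReach (↑(S \ F) \ {e}) (dsrc e) (dtgt e)) =
      PQ (1 - q) (dmp S) (Con (dl e)) := by
  unfold PQ
  rw [pr_dmp]
  have := Pr_compl (fun _ : Edg => q) S (fun H => DReach ((↑H : Set Edg) \ {e}) (dsrc e) (dtgt e))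
  rw [← this]
  exact Pr_congr (fun F _ => (Con_dl e F).symm)

theorem dl_e0 (b : Bool) : ∃ s t : ℤ, dl (e0 b) = (trl s t).φ (e0 (!b)) ∧
    ((s = 0 ∧ t = -1) ∨ (s = -1 ∧ t = 0)) := by
  cases b
  · exact ⟨-1, 0, by simp [e0], Or.inr ⟨rfl, rfl⟩⟩
  · exact ⟨0, -1, by simp [e0], Or.inl ⟨rfl, rfl⟩⟩

theorem sub1 {s t : ℤ} (h : (s = 0 ∧ t = -1) ∨ (s = -1 ∧ t = 0)) (n : ℕ) :
    (trl s t).mp (boxE n) ⊆ dmp (boxE (n + 2)) := by
  unfold boxE
  rw [trl_RE]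
  rintro ⟨x, y, _ | _⟩ h8
  · simp only [mem_RE_false, mem_dmp, dls_f, mem_RE_true] at h8 ⊢
    push_cast
    omega
  · simp only [mem_RE_false, mem_dmp, dls_t, mem_RE_true] at h8 ⊢
    push_cast
    omega

theorem sub2 {s t : ℤ} (h : (s = 0 ∧ t = -1) ∨ (s = -1 ∧ t = 0)) (n : ℕ) :
    dmp (boxE n) ⊆ (trl s t).mp (boxE (n + 2)) := by
  unfold boxE
  rw [trl_RE]
  rintro ⟨x, y, _ | _⟩ h8
  · simp only [mem_RE_false, mem_dmp, dls_f, mem_RE_true] at h8 ⊢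
    push_cast
    omega
  · simp only [mem_RE_false, mem_dmp, dls_t, mem_RE_true] at h8 ⊢
    push_cast
    omega

theorem lower {q : ℝ} (h0 : 0 ≤ q) (h1 : q ≤ 1) (b : Bool) (n : ℕ) :
    PQ q (boxE n) (Con (e0 (!b))) ≤ PQ q (dmp (boxE (n + 2))) (Con (dl (e0 b))) := by
  obtain ⟨s, t, hd, hst⟩ := dl_e0 b
  rw [← pr_trl q s t (boxE n) (e0 (!b)), hd]
  exact Pr_mono_set (okq h0 h1) (sub1 hst n) (Con_incr _ _)

theorem upper {q : ℝ} (h0 : 0 ≤ q) (h1 : q ≤ 1) (b : Bool) (n : ℕ) :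
    PQ q (dmp (boxE n)) (Con (dl (e0 b))) ≤ gb (!b) q := by
  obtain ⟨s, t, hd, hst⟩ := dl_e0 b
  refine le_trans ?_ (le_gb h0 h1 (!b) (n + 2))
  rw [← pr_trl q s t (boxE (n + 2)) (e0 (!b)), hd]
  exact Pr_mono_set (okq h0 h1) (sub2 hst n) (Con_incr _ _)

theorem part_a (hdup : S_dup) {q : ℝ} (h0 : 0 ≤ q) (h1 : q ≤ 1) (b : Bool) (n : ℕ) :
    PQ q (boxE (n + 2)) (Con (e0 b)) + PQ (1 - q) (boxE n) (Con (e0 (!b))) ≤ 1 := by
  have l := lower (q := 1 - q) (by linarith) (by linarith) b n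
  have e := pr_dual q (boxE (n + 2)) (e0 b)
  have hb : PQ q (boxE (n + 2)) (fun F => DReach (↑(boxE (n + 2) \ F) \ {e0 b})
      (dsrc (e0 b)) (dtgt (e0 b))) ≤ PQ q (boxE (n + 2)) (fun F => ¬ Con (e0 b) F) := by
    apply Pr_mono (okq h0 h1)
    intro F _ hD hC
    refine hdup ↑F (e0 b) ?_ (hD.mono ?_)
    · unfold Pool.Agent.W810.KP.Con at hC
      rwa [Finset.coe_erase] at hC
    · rintro g ⟨hg, hg2⟩
      rw [Finset.coe_sdiff] at hg
      exact ⟨hg.2, hg2⟩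
  have hn := Pr_not (p := fun _ : Edg => q) (boxE (n + 2)) (Con (e0 b))
  unfold PQ at *
  linarith

theorem part_b (hduc : S_duc) {q : ℝ} (h0 : 0 ≤ q) (h1 : q ≤ 1) (b : Bool) (n : ℕ) (hn : 1 ≤ n) :
    1 ≤ gb b q + arm q n + gb (!b) (1 - q) := by
  have hT : PQ q (boxE n) (fun F => (Con (e0 b) F ∨ (∃ u : Vtx, (u.1 ≤ (0:ℤ) - n ∨
      (0:ℤ) + n ≤ u.1 ∨ u.2 ≤ (0:ℤ) - n ∨ (0:ℤ) + n ≤ u.2) ∧ Reach (↑F) ((0:ℤ), (0:ℤ)) u)) ∨
      DReach (↑(boxE n \ F) \ {e0 b}) (dsrc (e0 b)) (dtgt (e0 b))) = 1 := by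
    apply Pr_true
    intro F _
    by_contra hcon
    push Not at hcon
    obtain ⟨⟨hC, hFar⟩, hD⟩ := hcon
    apply hD
    have key := hduc ↑F (e0 b) (n - 1) ?_ ?_
    · refine key.mono ?_
      rintro g ⟨⟨hg1, hg2⟩, hg3⟩
      refine ⟨?_, hg2⟩
      rw [Finset.coe_sdiff]
      refine ⟨?_, hg1⟩
      rwa [show n - 1 + 1 = n by omega] at hg3
    · intro v hv
      by_contra hcc
      refine hFar v ?_ (Reach.mono Set.sdiff_subset hv)
      have hc : ((n - 1 : ℕ) : ℤ) = (n:ℤ) - 1 := by omega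
      rw [hc, abs_le, abs_le] at hcc
      omega
    · intro hR
      apply hC
      unfold Pool.Agent.W810.KP.Con
      rwa [Finset.coe_erase]
  have u1 := Pr_or_le (okq h0 h1) (boxE n) (fun F => (Con (e0 b) F ∨ (∃ u : Vtx, (u.1 ≤ (0:ℤ) - n ∨
      (0:ℤ) + n ≤ u.1 ∨ u.2 ≤ (0:ℤ) - n ∨ (0:ℤ) + n ≤ u.2) ∧ Reach (↑F) ((0:ℤ), (0:ℤ)) u)))
      (fun F => DReach (↑(boxE n \ F) \ {e0 b}) (dsrc (e0 b)) (dtgt (e0 b)))
  have u2 := Pr_or_le (okq h0 h1) (boxE n) (Con (e0 b)) (fun F => ∃ u : Vtx, (u.1 ≤ (0:ℤ) - n ∨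
      (0:ℤ) + n ≤ u.1 ∨ u.2 ≤ (0:ℤ) - n ∨ (0:ℤ) + n ≤ u.2) ∧ Reach (↑F) ((0:ℤ), (0:ℤ)) u)
  have u3 := arm_bound h0 h1 (boxE n) ((0:ℤ), (0:ℤ)) n
  have u4 := pr_dual q (boxE n) (e0 b)
  have u5 := upper (q := 1 - q) (by linarith) (by linarith) b n
  have u6 := le_gb h0 h1 b n
  unfold PQ at *
  simp only at u3
  linarith

theorem main (hdup : S_dup) (hduc : S_duc) : S_dua := by
  intro q b h0 hq harm
  have h1 : q ≤ 1 := by linarith
  apply le_antisymm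
  · have t1 := (tendsto_gb h0 h1 b).comp (Filter.tendsto_add_atTop_nat 2)
    have t2 := tendsto_gb (q := 1 - q) (by linarith) (by linarith) (!b)
    exact le_of_tendsto' (t1.add t2) (fun n => part_a hdup h0 h1 b n)
  · have t3 : Filter.Tendsto (fun n : ℕ => gb b q + arm q n + gb (!b) (1 - q)) Filter.atTop
        (nhds (gb b q + 0 + gb (!b) (1 - q))) :=
      (tendsto_const_nhds.add harm).add tendsto_const_nhds
    have := ge_of_tendsto t3 (Filter.eventually_atTop.mpr ⟨1, fun n hn =>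
      part_b hduc h0 h1 b n hn⟩)
    linarith

end Pool.Agent.W698.KPDua

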